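import Pool.Agent.Q211.FI.Mix

/-!
# Factors of i.i.d. on graphs: matchings, balanced orientations, Schreier decorations
-/

set_option autoImplicit false

open MeasureTheory ProbabilityTheory Filter Topology Set

namespace Pool.Agent.Q211.FI

variable {V : Type*}

/-- The law of i.i.d. uniform `[0,1]` labels on the vertices. -/
noncomputable def iid (V : Type*) : Measure (V → unitInterval) :=
  prodM V (volume : Measure unitInterval)

instance : IsProbabilityMeasure (iid V) := by
  unfold iid
  infer_instance

/-- The action of an automorphism on vertex labels: `(γ ω)(γ v) = ω(v)`. -/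
def actLabel {G : SimpleGraph V} (γ : G ≃g G) (ω : V → unitInterval) : V → unitInterval :=
  fun v => ω (γ.symm v)

/-- The action of an automorphism on decorations of the ordered pairs of vertices:
`(γ c)(γ u, γ v) = c(u, v)`. -/
def actDec {G : SimpleGraph V} {D : Type*} (γ : G ≃g G) (c : V → V → D) : V → V → D :=
  fun u v => c (γ.symm u) (γ.symm v)

/-- `Φ` is a factor map: it is measurable and commutes with all automorphisms of `G`. -/
structure IsFactor (G : SimpleGraph V) {D : Type*} [MeasurableSpace D]
    (Φ : (V → unitInterval) → V → V → D) : Prop where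
  meas : Measurable Φ
  equi : ∀ (γ : G ≃g G) (ω : V → unitInterval), Φ (actLabel γ ω) = actDec γ (Φ ω)

/-- A structure (a property `p` of decorations with values in `D`) exists on `G` as a factor of
i.i.d. -/
def ExistsAsFactor (G : SimpleGraph V) {D : Type*} [MeasurableSpace D]
    (p : (V → V → D) → Prop) : Prop :=
  ∃ Φ : (V → unitInterval) → V → V → D, IsFactor G Φ ∧ ∀ᵐ ω ∂(iid V), p (Φ ω)

/-- `m` is (the indicator of) a perfect matching of `G`. -/
def IsPerfectMatching (G : SimpleGraph V) (m : V → V → Bool) : Prop :=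
  (∀ u v, m u v = m v u) ∧ (∀ u v, m u v = true → G.Adj u v) ∧ ∀ u, ∃! v, m u v = true

/-- `o` is an orientation of the edges of `G`: `o u v = true` means that the edge `uv` is oriented
from `u` to `v`. -/
def IsOrientation (G : SimpleGraph V) (o : V → V → Bool) : Prop :=
  (∀ u v, o u v = true → G.Adj u v) ∧ ∀ u v, G.Adj u v → (o u v = true ↔ ¬ o v u = true)

/-- `o` is a balanced orientation of the `2 * d`-regular graph `G`: all out-degrees and all
in-degrees are equal to `d`. -/
def IsBalanced (G : SimpleGraph V) (d : ℕ) (o : V → V → Bool) : Prop :=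
  IsOrientation G o ∧ ∀ v, {u | o v u = true}.ncard = d ∧ {u | o u v = true}.ncard = d

/-- `c` is a Schreier decoration of the `2 * d`-regular graph `G`: `(c u v).1` says whether the edge
`uv` is oriented from `u` to `v`, `(c u v).2` is its colour, and for every vertex and every colour
there are exactly one outgoing and exactly one incoming edge of this colour. -/
def IsSchreier (G : SimpleGraph V) (d : ℕ) (c : V → V → Bool × Fin d) : Prop :=
  IsOrientation G (fun u v => (c u v).1) ∧ (∀ u v, G.Adj u v → (c u v).2 = (c v u).2) ∧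
    ∀ (v : V) (i : Fin d), {u | (c v u).1 = true ∧ (c v u).2 = i}.ncard = 1 ∧
      {u | (c u v).1 = true ∧ (c u v).2 = i}.ncard = 1

theorem map_actLabel {G : SimpleGraph V} (γ : G ≃g G) : (iid V).map (actLabel γ) = iid V :=
  map_pull (V := V) (volume : Measure unitInterval) (T := fun v => γ.symm v) γ.symm.injective

theorem measurable_actLabel {G : SimpleGraph V} (γ : G ≃g G) : Measurable (actLabel γ) :=
  measurable_pull (E := unitInterval) (fun v => γ.symm v)

theorem ae_actLabel {G : SimpleGraph V} (γ : G ≃g G) {p : (V → unitInterval) → Prop}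
    (h : ∀ᵐ ω ∂(iid V), p ω) : ∀ᵐ ω ∂(iid V), p (actLabel γ ω) := by
  have h2 := h
  rw [← map_actLabel γ] at h2
  exact ae_of_ae_map (measurable_actLabel γ).aemeasurable h2

theorem ncard_of_colours {d : ℕ} (S : Fin d → Set V) (hd : ∀ i j, i ≠ j → Disjoint (S i) (S j))
    (h : ∀ i, (S i).ncard = 1) : (⋃ i, S i).ncard = d := by
  have h1 : ∀ i, ∃ a, S i = {a} := fun i => Set.ncard_eq_one.1 (h i)
  choose f hf using h1
  have hinj : Function.Injective f := by
    intro i j hij
    by_contra hne
    have h2 := hd i j hne
    rw [hf i, hf j, hij, Set.disjoint_singleton] at h2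
    exact h2 rfl
  have h2 : (⋃ i, S i) = Set.range f := by
    ext x
    simp only [hf, mem_iUnion, mem_singleton_iff, mem_range]
    constructor
    · rintro ⟨i, rfl⟩
      exact ⟨i, rfl⟩
    · rintro ⟨i, rfl⟩
      exact ⟨i, rfl⟩
  rw [h2, ← Set.image_univ, Set.ncard_image_of_injective _ hinj, Set.ncard_univ]
  simp

theorem IsSchreier.balanced {G : SimpleGraph V} {d : ℕ} {c : V → V → Bool × Fin d}
    (h : IsSchreier G d c) : IsBalanced G d (fun u v => (c u v).1) := by
  refine ⟨h.1, fun v => ⟨?_, ?_⟩⟩
  · have h1 := ncard_of_colours (fun i : Fin d => {u | (c v u).1 = true ∧ (c v u).2 = i}) (by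
      intro i j hij
      rw [Set.disjoint_left]
      rintro u ⟨_, h2⟩ ⟨_, h3⟩
      exact hij (h2.symm.trans h3)) (fun i => (h.2.2 v i).1)
    refine Eq.trans ?_ h1
    congr 1
    ext u
    simp
  · have h1 := ncard_of_colours (fun i : Fin d => {u | (c u v).1 = true ∧ (c u v).2 = i}) (by
      intro i j hij
      rw [Set.disjoint_left]
      rintro u ⟨_, h2⟩ ⟨_, h3⟩
      exact hij (h2.symm.trans h3)) (fun i => (h.2.2 v i).2)
    refine Eq.trans ?_ h1
    congr 1
    ext u
    simp

/-- A factor of i.i.d. Schreier decoration yields a factor of i.i.d. balanced orientation. -/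
theorem balanced_of_schreier {G : SimpleGraph V} {d : ℕ}
    (h : ExistsAsFactor G (IsSchreier G d)) : ExistsAsFactor G (IsBalanced G d) := by
  obtain ⟨Φ, hΦ, hae⟩ := h
  refine ⟨fun ω u v => (Φ ω u v).1, ⟨?_, fun γ ω => ?_⟩, ?_⟩
  · refine measurable_pi_lambda _ fun u => measurable_pi_lambda _ fun v => ?_
    exact measurable_fst.comp ((measurable_pi_apply v).comp ((measurable_pi_apply u).comp hΦ.meas))
  · funext u v
    rw [hΦ.equi γ ω]
    rfl
  · filter_upwards [hae] with ω hω
    exact hω.balanced

end Pool.Agent.Q211.FI
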