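import Mathlib

/-!
# Mixing of permutations of the coordinates of an i.i.d. family
-/

set_option autoImplicit false

open MeasureTheory ProbabilityTheory Filter Topology Set

namespace Pool.Agent.Q211.FI

section

variable {V E : Type*} [MeasurableSpace E]

/-- The law of an i.i.d. family indexed by `V`. -/
noncomputable def prodM (V : Type*) {E : Type*} [MeasurableSpace E] (μ0 : Measure E)
    [IsProbabilityMeasure μ0] : Measure (V → E) := Measure.infinitePi fun _ : V => μ0

instance (μ0 : Measure E) [IsProbabilityMeasure μ0] : IsProbabilityMeasure (prodM V μ0) := by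
  unfold prodM
  infer_instance

theorem measurable_pull (T : V → V) : Measurable fun (ω : V → E) (v : V) => ω (T v) :=
  measurable_pi_lambda _ fun _ => measurable_pi_apply _

theorem map_pull (μ0 : Measure E) [IsProbabilityMeasure μ0] {T : V → V}
    (hT : Function.Injective T) :
    (prodM V μ0).map (fun (ω : V → E) (v : V) => ω (T v)) = prodM V μ0 :=
  Measure.map_infinitePi_infinitePi_of_inj (P := fun _ : V => μ0) (f := T) hT

theorem mix_cyl (μ0 : Measure E) [IsProbabilityMeasure μ0] {T : V → V}
    (hT : Function.Injective T) (s s' : Finset V) (A B : V → Set E)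
    (hA : ∀ v, MeasurableSet (A v)) (hB : ∀ v, MeasurableSet (B v))
    (hd : ∀ v ∈ s', T v ∉ s) :
    (prodM V μ0) (Set.pi (s : Set V) A ∩
        (fun (ω : V → E) (v : V) => ω (T v)) ⁻¹' Set.pi (s' : Set V) B) =
      (prodM V μ0) (Set.pi (s : Set V) A) * (prodM V μ0) (Set.pi (s' : Set V) B) := by
  classical
  have hind : iIndepFun (fun (v : V) (ω : V → E) => ω v) (prodM V μ0) :=
    iIndepFun_infinitePi (P := fun _ : V => μ0) (X := fun _ p => p) (fun _ => measurable_id)
  have hdis : Disjoint s (s'.image T) := by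
    rw [Finset.disjoint_right]
    intro a ha
    obtain ⟨v, hv, rfl⟩ := Finset.mem_image.1 ha
    exact hd v hv
  have h1 := hind.indepFun_finset s (s'.image T) hdis (fun v => measurable_pi_apply v)
  have hS1 : MeasurableSet {x : s → E | ∀ i : s, x i ∈ A i} := by
    have : {x : s → E | ∀ i : s, x i ∈ A i} = ⋂ i : s, (fun x : s → E => x i) ⁻¹' A i := by
      ext x
      simp
    rw [this]
    exact MeasurableSet.iInter fun i => measurable_pi_apply i (hA i)
  have hS2 : MeasurableSet {y : (↥(Finset.image T s')) → E | ∀ j : s',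
      y ⟨T j, Finset.mem_image_of_mem T j.2⟩ ∈ B j} := by
    have : {y : (↥(Finset.image T s')) → E | ∀ j : s',
      y ⟨T j, Finset.mem_image_of_mem T j.2⟩ ∈ B j} = ⋂ j : s',
        (fun y : (↥(Finset.image T s')) → E => y ⟨T j, Finset.mem_image_of_mem T j.2⟩) ⁻¹' B j := by
      ext x
      simp
    rw [this]
    exact MeasurableSet.iInter fun i => measurable_pi_apply _ (hB i)
  have h2 := h1.measure_inter_preimage_eq_mul _ _ hS1 hS2
  have e1 : (fun (a : V → E) (i : s) => a i) ⁻¹' {x : s → E | ∀ i : s, x i ∈ A i} =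
      Set.pi (s : Set V) A := by
    ext ω
    simp [Set.mem_pi]
  have e2 : (fun (a : V → E) (i : ↥(Finset.image T s')) => a i) ⁻¹'
      {y : (↥(Finset.image T s')) → E | ∀ j : s', y ⟨T j, Finset.mem_image_of_mem T j.2⟩ ∈ B j} =
      (fun (ω : V → E) (v : V) => ω (T v)) ⁻¹' Set.pi (s' : Set V) B := by
    ext ω
    simp [Set.mem_pi]
  rw [e1, e2] at h2
  rw [h2]
  congr 1
  have hpi : MeasurableSet (Set.pi (s' : Set V) B) :=
    MeasurableSet.pi (Finset.countable_toSet _) fun i _ => hB i
  conv_rhs => rw [← map_pull μ0 hT]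
  rw [Measure.map_apply (measurable_pull T) hpi]

theorem real_iUnion (P : Measure (V → E)) [IsProbabilityMeasure P] (f : ℕ → Set (V → E))
    (hd : Pairwise (Function.onFun Disjoint f))
    (hf : ∀ i, MeasurableSet (f i)) : P.real (⋃ i, f i) = ∑' i, P.real (f i) := by
  rw [measureReal_def, measure_iUnion hd hf, ENNReal.tsum_toReal_eq]
  · rfl
  · exact fun i => measure_ne_top _ _

theorem summable_real (P : Measure (V → E)) [IsProbabilityMeasure P] (f : ℕ → Set (V → E))
    (hd : Pairwise (Function.onFun Disjoint f))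
    (hf : ∀ i, MeasurableSet (f i)) : Summable fun i => P.real (f i) := by
  have h3 : ∑' i, P (f i) ≠ ⊤ := by
    rw [← measure_iUnion hd hf]
    exact measure_ne_top _ _
  exact ENNReal.summable_toReal h3

variable (μ0 : Measure E) [IsProbabilityMeasure μ0] {T : ℕ → V → V}
  (hinj : ∀ n, Function.Injective (T n)) (hT : ∀ v w, ∀ᶠ n in atTop, T n v ≠ w)

include hinj hT in
theorem mix_half (s' : Finset V) (B : V → Set E) (hB : ∀ v, MeasurableSet (B v))
    (A : Set (V → E)) (hA : MeasurableSet A) :
    Tendsto (fun n => (prodM V μ0).real (A ∩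
        (fun (ω : V → E) (v : V) => ω (T n v)) ⁻¹' Set.pi (s' : Set V) B)) atTop
      (𝓝 ((prodM V μ0).real A * (prodM V μ0).real (Set.pi (s' : Set V) B))) := by
  classical
  set P := prodM V μ0 with hP
  set C : ℕ → Set (V → E) := fun n =>
    (fun (ω : V → E) (v : V) => ω (T n v)) ⁻¹' Set.pi (s' : Set V) B with hC
  set b := P.real (Set.pi (s' : Set V) B) with hb
  have hpi : MeasurableSet (Set.pi (s' : Set V) B) :=
    MeasurableSet.pi (Finset.countable_toSet _) fun i _ => hB i
  have hCm : ∀ n, MeasurableSet (C n) := fun n => measurable_pull _ hpi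
  have hCr : ∀ n, P.real (C n) = b := by
    intro n
    rw [hb, measureReal_def, measureReal_def]
    conv_rhs => rw [hP, ← map_pull μ0 (hinj n)]
    rw [Measure.map_apply (measurable_pull _) hpi]
  show Tendsto (fun n => P.real (A ∩ C n)) atTop (𝓝 (P.real A * b))
  refine MeasurableSpace.induction_on_inter
    (C := fun A _ => Tendsto (fun n : ℕ => P.real (A ∩ C n)) atTop (𝓝 (P.real A * b)))
    (generateFrom_squareCylinders (α := fun _ : V => E)).symm
    (isPiSystem_squareCylinders (fun _ => MeasurableSpace.isPiSystem_measurableSet) (by simp))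
    ?_ ?_ ?_ ?_ A hA
  · simp
  · rintro _ ⟨s, D, hD, rfl⟩
    have hD' : ∀ i, MeasurableSet (D i) := fun i => hD i (mem_univ i)
    have hev : ∀ᶠ n in atTop, ∀ v ∈ s', T n v ∉ s := by
      rw [Filter.eventually_all_finset]
      intro v _
      have : ∀ᶠ n in atTop, ∀ w ∈ s, T n v ≠ w := by
        rw [Filter.eventually_all_finset]
        exact fun w _ => hT v w
      filter_upwards [this] with n hn hmem
      exact hn _ hmem rfl
    refine Tendsto.congr' ?_ tendsto_const_nhds
    filter_upwards [hev] with n hn
    rw [measureReal_def]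
    have := mix_cyl μ0 (hinj n) s s' D B hD' hB hn
    rw [hb, measureReal_def, measureReal_def, ← ENNReal.toReal_mul, ← this]
  · intro t ht h
    have h1 : ∀ n, P.real (tᶜ ∩ C n) = b - P.real (t ∩ C n) := by
      intro n
      have h2 := measureReal_inter_add_sdiff₀ (μ := P) (s := C n) (t := t) ht.nullMeasurableSet
      rw [hCr] at h2
      have h3 : tᶜ ∩ C n = C n \ t := by
        ext ω
        simp [and_comm]
      have h4 : t ∩ C n = C n ∩ t := inter_comm _ _
      rw [h3, h4]
      linarith
    simp_rw [h1]
    have h2 : P.real tᶜ * b = b - P.real t * b := by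
      rw [probReal_compl_eq_one_sub ht]
      ring
    rw [h2]
    exact tendsto_const_nhds.sub h
  · intro f hd hf h
    have h1 : ∀ n, P.real ((⋃ i, f i) ∩ C n) = ∑' i, P.real (f i ∩ C n) := by
      intro n
      rw [iUnion_inter, real_iUnion]
      · intro i j hij
        exact (hd hij).mono inter_subset_left inter_subset_left
      · exact fun i => (hf i).inter (hCm n)
    have h2 : P.real (⋃ i, f i) * b = ∑' i, P.real (f i) * b := by
      rw [real_iUnion P f hd hf, tsum_mul_right]
    simp_rw [h1]
    rw [h2]
    refine tendsto_tsum_of_dominated_convergence (summable_real P f hd hf) h ?_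
    refine Eventually.of_forall fun n i => ?_
    rw [Real.norm_eq_abs, abs_of_nonneg measureReal_nonneg]
    exact measureReal_mono inter_subset_left

include hinj hT in
theorem mixing (A : Set (V → E)) (hA : MeasurableSet A) (B : Set (V → E)) (hB : MeasurableSet B) :
    Tendsto (fun n => (prodM V μ0).real (A ∩
        (fun (ω : V → E) (v : V) => ω (T n v)) ⁻¹' B)) atTop
      (𝓝 ((prodM V μ0).real A * (prodM V μ0).real B)) := by
  classical
  set P := prodM V μ0 with hP
  set S : ℕ → (V → E) → (V → E) := fun n ω v => ω (T n v) with hS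
  have hSm : ∀ n, Measurable (S n) := fun n => measurable_pull _
  have hSr : ∀ n (D : Set (V → E)), MeasurableSet D → P.real (S n ⁻¹' D) = P.real D := by
    intro n D hD
    rw [measureReal_def, measureReal_def]
    conv_rhs => rw [hP, ← map_pull μ0 (hinj n)]
    rw [Measure.map_apply (measurable_pull _) hD]
  show Tendsto (fun n => P.real (A ∩ S n ⁻¹' B)) atTop (𝓝 (P.real A * P.real B))
  refine MeasurableSpace.induction_on_inter
    (C := fun B _ => Tendsto (fun n : ℕ => P.real (A ∩ S n ⁻¹' B)) atTop
      (𝓝 (P.real A * P.real B)))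
    (generateFrom_squareCylinders (α := fun _ : V => E)).symm
    (isPiSystem_squareCylinders (fun _ => MeasurableSpace.isPiSystem_measurableSet) (by simp))
    ?_ ?_ ?_ ?_ B hB
  · simp
  · rintro _ ⟨s, D, hD, rfl⟩
    exact mix_half μ0 hinj hT s D (fun i => hD i (mem_univ i)) A hA
  · intro t ht h
    have h1 : ∀ n, P.real (A ∩ S n ⁻¹' tᶜ) = P.real A - P.real (A ∩ S n ⁻¹' t) := by
      intro n
      have h2 := measureReal_inter_add_sdiff₀ (μ := P) (s := A) (t := S n ⁻¹' t)
        (hSm n ht).nullMeasurableSet
      have h3 : A ∩ S n ⁻¹' tᶜ = A \ (S n ⁻¹' t) := by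
        ext ω
        simp
      rw [h3]
      linarith
    simp_rw [h1]
    have h2 : P.real A * P.real tᶜ = P.real A - P.real A * P.real t := by
      rw [probReal_compl_eq_one_sub ht]
      ring
    rw [h2]
    exact tendsto_const_nhds.sub h
  · intro f hd hf h
    have h1 : ∀ n, P.real (A ∩ S n ⁻¹' (⋃ i, f i)) = ∑' i, P.real (A ∩ S n ⁻¹' (f i)) := by
      intro n
      rw [preimage_iUnion, inter_iUnion, real_iUnion]
      · intro i j hij
        exact ((hd hij).preimage _).mono inter_subset_right inter_subset_right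
      · exact fun i => hA.inter (hSm n (hf i))
    have h2 : P.real A * P.real (⋃ i, f i) = ∑' i, P.real A * P.real (f i) := by
      rw [real_iUnion P f hd hf, tsum_mul_left]
    simp_rw [h1]
    rw [h2]
    refine tendsto_tsum_of_dominated_convergence (summable_real P f hd hf) h ?_
    refine Eventually.of_forall fun n i => ?_
    rw [Real.norm_eq_abs, abs_of_nonneg measureReal_nonneg, ← hSr n (f i) (hf i)]
    exact measureReal_mono inter_subset_right

include hinj hT in
/-- Zero-one law for almost invariant events. -/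
theorem zero_one (A : Set (V → E)) (hA : MeasurableSet A)
    (hinv : ∀ n, ∀ᵐ ω ∂(prodM V μ0), (fun v => ω (T n v)) ∈ A ↔ ω ∈ A) :
    (prodM V μ0).real A = 0 ∨ (prodM V μ0).real A = 1 := by
  have h1 := mixing μ0 hinj hT A hA A hA
  have h2 : ∀ n, (prodM V μ0).real (A ∩ (fun (ω : V → E) (v : V) => ω (T n v)) ⁻¹' A) =
      (prodM V μ0).real A := by
    intro n
    refine measureReal_congr ?_
    filter_upwards [hinv n] with ω hω
    apply propext
    constructor
    · exact fun h => h.1
    · exact fun h => ⟨h, hω.2 h⟩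
  simp_rw [h2] at h1
  have h3 := tendsto_nhds_unique h1 tendsto_const_nhds
  have h4 : (prodM V μ0).real A * ((prodM V μ0).real A - 1) = 0 := by linarith
  rcases mul_eq_zero.1 h4 with h | h
  · exact Or.inl h
  · exact Or.inr (by linarith)

end

end Pool.Agent.Q211.FI
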